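import Mathlib

set_option autoImplicit false

/-!
Existence of the Hochschild boundary maps on tensor powers, in the form used in the frozen statement.
-/

namespace Pool.Agent.Helper879Han

universe u v w

variable {k : Type u} [Field k] {A : Type v} [Ring A] [Algebra k A]

theorem predAbove_val {n : ℕ} (i : Fin (n + 1)) (j : Fin (n + 1 + 1)) :
    (i.predAbove j : ℕ) = if (i : ℕ) < (j : ℕ) then (j : ℕ) - 1 else (j : ℕ) := by
  unfold Fin.predAbove
  by_cases h : (i : ℕ) < (j : ℕ)
  · have h' : i.castSucc < j := by simpa [Fin.lt_def] using h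
    simp [h, h']
  · have h' : ¬ i.castSucc < j := by simpa [Fin.lt_def] using h
    simp [h, h']

theorem contr_off {n : ℕ} (i : Fin (n + 1)) (j : Fin (n + 1 + 1)) (a : Fin (n + 1 + 1) → A) (x : A)
    (l : Fin (n + 1)) (hl : l ≠ i.predAbove j) :
    Fin.contractNth i.castSucc (fun x y : A => x * y) (Function.update a j x) l =
      Fin.contractNth i.castSucc (fun x y : A => x * y) a l := by
  have hv : (l : ℕ) ≠ if (i : ℕ) < (j : ℕ) then (j : ℕ) - 1 else (j : ℕ) := by
    rw [← predAbove_val]
    exact fun h => hl (Fin.ext h)
  unfold Fin.contractNth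
  have hi : ((i.castSucc : Fin (n + 1 + 1)) : ℕ) = (i : ℕ) := rfl
  simp only [hi]
  have h1 : ∀ (m : Fin (n + 1 + 1)), m ≠ j → Function.update a j x m = a m := fun m hm =>
    Function.update_of_ne hm _ _
  split_ifs with h2 h3
  · rw [h1]
    intro h
    have := congrArg Fin.val h
    simp at this
    split_ifs at hv <;> omega
  · rw [h1, h1]
    · intro h
      have := congrArg Fin.val h
      simp at this
      split_ifs at hv <;> omega
    · intro h
      have := congrArg Fin.val h
      simp at this
      split_ifs at hv <;> omega
  · rw [h1]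
    intro h
    have := congrArg Fin.val h
    simp at this
    split_ifs at hv <;> omega

theorem contr_on {n : ℕ} (i : Fin (n + 1)) (j : Fin (n + 1 + 1)) (a : Fin (n + 1 + 1) → A) :
    ∃ L : A →ₗ[k] A, ∀ x : A,
      Fin.contractNth i.castSucc (fun x y : A => x * y) (Function.update a j x) (i.predAbove j) =
        L x := by
  have hv := predAbove_val i j
  rcases lt_trichotomy (j : ℕ) (i : ℕ) with h | h | h
  · refine ⟨LinearMap.id, fun x => ?_⟩
    have hv' : (i.predAbove j : ℕ) = j := by rw [hv, if_neg (by omega)]
    rw [Fin.contractNth_apply_of_lt _ _ _ _ (by simp [hv']; omega)]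
    have : (i.predAbove j).castSucc = j := Fin.ext (by simp [hv'])
    rw [this, Function.update_self]
    rfl
  · refine ⟨LinearMap.mulRight k (a i.succ), fun x => ?_⟩
    have hv' : (i.predAbove j : ℕ) = j := by rw [hv, if_neg (by omega)]
    rw [Fin.contractNth_apply_of_eq _ _ _ _ (by simp [hv']; omega)]
    have e1 : (i.predAbove j).castSucc = j := Fin.ext (by simp [hv'])
    have e2 : (i.predAbove j).succ = i.succ := Fin.ext (by simp [hv']; omega)
    rw [e1, e2, Function.update_self, Function.update_of_ne]
    · rfl
    · intro h'
      have := congrArg Fin.val h'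
      simp at this
      omega
  · by_cases h2 : (j : ℕ) = (i : ℕ) + 1
    · refine ⟨LinearMap.mulLeft k (a i.castSucc), fun x => ?_⟩
      have hv' : (i.predAbove j : ℕ) = i := by rw [hv, if_pos (by omega)]; omega
      rw [Fin.contractNth_apply_of_eq _ _ _ _ (by simp [hv'])]
      have e1 : (i.predAbove j).castSucc = i.castSucc := Fin.ext (by simp [hv'])
      have e2 : (i.predAbove j).succ = j := Fin.ext (by simp [hv']; omega)
      rw [e1, e2, Function.update_self, Function.update_of_ne]
      · rfl
      · intro h'
        have := congrArg Fin.val h'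
        simp at this
        omega
    · refine ⟨LinearMap.id, fun x => ?_⟩
      have hv' : (i.predAbove j : ℕ) = j - 1 := by rw [hv, if_pos (by omega)]
      rw [Fin.contractNth_apply_of_gt _ _ _ _ (by simp [hv']; omega)]
      have : (i.predAbove j).succ = j := Fin.ext (by simp [hv']; omega)
      rw [this, Function.update_self]
      rfl

theorem contr_update {n : ℕ} (i : Fin (n + 1)) (j : Fin (n + 1 + 1)) (a : Fin (n + 1 + 1) → A) :
    ∃ L : A →ₗ[k] A, ∀ x : A,
      Fin.contractNth i.castSucc (fun x y : A => x * y) (Function.update a j x) =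
        Function.update (Fin.contractNth i.castSucc (fun x y : A => x * y) a) (i.predAbove j)
          (L x) := by
  obtain ⟨L, hL⟩ := contr_on (k := k) i j a
  refine ⟨L, fun x => ?_⟩
  funext l
  by_cases hl : l = i.predAbove j
  · subst hl
    rw [Function.update_self, hL]
  · rw [Function.update_of_ne hl, contr_off i j a x l hl]

/-- The `i`-th face as a multilinear map. -/
noncomputable def face (n : ℕ) (i : Fin (n + 1)) :
    MultilinearMap k (fun _ : Fin (n + 1 + 1) => A) (PiTensorProduct k (fun _ : Fin (n + 1) => A)) :=
  MultilinearMap.mk'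
    (fun a => PiTensorProduct.tprod k (Fin.contractNth i.castSucc (fun x y : A => x * y) a))
    (fun a j x y => by
      obtain ⟨L, hL⟩ := contr_update (k := k) i j a
      rw [hL, hL, hL, map_add, MultilinearMap.map_update_add])
    (fun a j c x => by
      obtain ⟨L, hL⟩ := contr_update (k := k) i j a
      rw [hL, hL, map_smul, MultilinearMap.map_update_smul])

theorem last_update {n : ℕ} (j : Fin (n + 1 + 1)) (a : Fin (n + 1 + 1) → A) :
    ∃ (L : A →ₗ[k] A) (l : Fin (n + 1)), ∀ x : A,
      (Fin.cons (Function.update a j x (Fin.last (n + 1)) * Function.update a j x 0)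
        (fun m : Fin n => Function.update a j x m.succ.castSucc) : Fin (n + 1) → A) =
      Function.update (Fin.cons (a (Fin.last (n + 1)) * a 0)
        (fun m : Fin n => a m.succ.castSucc) : Fin (n + 1) → A) l (L x) := by
  by_cases h0 : j = 0
  · subst h0
    refine ⟨LinearMap.mulLeft k (a (Fin.last (n + 1))), 0, fun x => ?_⟩
    rw [Function.update_self, Function.update_of_ne (by simp [Fin.ext_iff]), Fin.update_cons_zero]
    congr 1
  · by_cases h1 : j = Fin.last (n + 1)
    · subst h1
      refine ⟨LinearMap.mulRight k (a 0), 0, fun x => ?_⟩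
      rw [Function.update_self, Function.update_of_ne (by simp [Fin.ext_iff]), Fin.update_cons_zero]
      congr 1
      funext m
      rw [Function.update_of_ne]
      intro h
      have := congrArg Fin.val h
      simp at this
      omega
    · have hj0 : 0 < (j : ℕ) := Nat.pos_of_ne_zero fun h => h0 (Fin.ext h)
      have hj1 : (j : ℕ) < n + 1 := by
        have := j.isLt
        have : (j : ℕ) ≠ n + 1 := fun h => h1 (Fin.ext (by simpa using h))
        omega
      let m0 : Fin n := ⟨(j : ℕ) - 1, by omega⟩
      have hm0 : m0.succ.castSucc = j := Fin.ext (by simp [m0]; omega)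
      refine ⟨LinearMap.id, m0.succ, fun x => ?_⟩
      rw [Function.update_of_ne (fun h => h1 h.symm), Function.update_of_ne (fun h => h0 h.symm),
        ← Fin.cons_update]
      congr 1
      funext m
      by_cases hm : m = m0
      · subst hm
        rw [hm0, Function.update_self, Function.update_self]
        rfl
      · rw [Function.update_of_ne hm, Function.update_of_ne]
        rw [← hm0]
        intro h
        exact hm (Fin.succ_injective _ (Fin.castSucc_injective _ h))

/-- The last face as a multilinear map. -/
noncomputable def lastFace (n : ℕ) :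
    MultilinearMap k (fun _ : Fin (n + 1 + 1) => A) (PiTensorProduct k (fun _ : Fin (n + 1) => A)) :=
  MultilinearMap.mk'
    (fun a => PiTensorProduct.tprod k ((Fin.cons (a (Fin.last (n + 1)) * a 0)
        (fun m : Fin n => a m.succ.castSucc) : Fin (n + 1) → A)))
    (fun a j x y => by
      obtain ⟨L, l, hL⟩ := last_update (k := k) j a
      rw [hL, hL, hL, map_add, MultilinearMap.map_update_add])
    (fun a j c x => by
      obtain ⟨L, l, hL⟩ := last_update (k := k) j a
      rw [hL, hL, map_smul, MultilinearMap.map_update_smul])

/-- The Hochschild boundary. -/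
noncomputable def bd (n : ℕ) :
    (PiTensorProduct k (fun _ : Fin (n + 1 + 1) => A)) →ₗ[k]
      (PiTensorProduct k (fun _ : Fin (n + 1) => A)) :=
  PiTensorProduct.lift (∑ i : Fin (n + 1), (-1 : k) ^ (i : ℕ) • face n i
    + (-1 : k) ^ (n + 1) • lastFace n)

theorem bd_tprod (n : ℕ) (a : Fin (n + 1 + 1) → A) :
    bd n (PiTensorProduct.tprod k a) =
      (∑ i : Fin (n + 1),
          (-1 : k) ^ (i : ℕ) •
            PiTensorProduct.tprod k
              (Fin.contractNth i.castSucc (fun x y : A => x * y) a)) +
        (-1 : k) ^ (n + 1) •
          PiTensorProduct.tprod k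
            ((Fin.cons (a (Fin.last (n + 1)) * a 0)
                (fun j : Fin n => a j.succ.castSucc) : Fin (n + 1) → A)) := by
  unfold bd
  rw [PiTensorProduct.lift.tprod, MultilinearMap.add_apply, MultilinearMap.sum_apply]
  rfl

/-- Existence of the family in the frozen statement. -/
theorem exists_b (k : Type) [Field k] (A : Type) [Ring A] [Algebra k A] :
    ∃ b : (n : ℕ) →
          (PiTensorProduct k (fun _ : Fin (n + 1 + 1) => A)) →ₗ[k]
            (PiTensorProduct k (fun _ : Fin (n + 1) => A)),
        (∀ (n : ℕ) (a : Fin (n + 1 + 1) → A),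
            b n (PiTensorProduct.tprod k a) =
              (∑ i : Fin (n + 1),
                  (-1 : k) ^ (i : ℕ) •
                    PiTensorProduct.tprod k
                      (Fin.contractNth i.castSucc (fun x y : A => x * y) a)) +
                (-1 : k) ^ (n + 1) •
                  PiTensorProduct.tprod k
                    ((Fin.cons (a (Fin.last (n + 1)) * a 0)
                        (fun j : Fin n => a j.succ.castSucc) : Fin (n + 1) → A))) :=
  ⟨bd, bd_tprod⟩

end Pool.Agent.Helper879Han
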