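import Pool.Agent.H796H.Mods

set_option autoImplicit false

/-!
Homomorphisms into the point modules (project HAN, section 3): `Hom_A(X_P, X_S) = 0` and the two
extension statements, from `Hom_A(A e_j, X_S) = ℂ`.
-/

open Complex Module
open Pool.Agent.H796H Pool.Agent.Helper272_HN

namespace Pool.Agent.Helper879Han

variable {Q : ℂ}

/-- coordinates -/
def co {Q P : ℂ} (x : X Q P) : Fin 3 → ℂ := x

theorem co_ext {P : ℂ} {x y : X Q P} (h : ∀ l, co x l = co y l) : x = y := funext h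

theorem co_smulC {P : ℂ} (c : ℂ) (x : X Q P) (l : Fin 3) : co (c • x) l = c * co x l := rfl

theorem co_add {P : ℂ} (x y : X Q P) (l : Fin 3) : co (x + y) l = co x l + co y l := rfl

theorem co_smulA {P : ℂ} (a : A Q) (x : X Q P) (i : Fin 3) :
    co (a • x) i = ∑ l, evb P a i l * co x l := rfl

/-- the matrix with the entry `g` at `(i, j)` -/
def elM (i j : Fin 3) (g : ℂ → ℂ) : Mt := fun a b => if a = i ∧ b = j then g else 0

theorem elM_mem {i j : Fin 3} {g : ℂ → ℂ} (hg : g ∈ Th (dg i j) 0) : elM i j g ∈ Bs := by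
  intro a b
  unfold elM
  split_ifs with h
  · obtain ⟨rfl, rfl⟩ := h; exact hg
  · exact (Th _ _).zero_mem

/-- the element of `A Q` with the matrix `elM i j g` -/
def el (Q : ℂ) {i j : Fin 3} {g : ℂ → ℂ} (hg : g ∈ Th (dg i j) 0) : A Q :=
  mk (elM_mem hg) (Submodule.zero_mem (Ns Q))

theorem evb_el {i j : Fin 3} {g : ℂ → ℂ} (hg : g ∈ Th (dg i j) 0) (P : ℂ) (a b : Fin 3) :
    evb P (el Q hg) a b = if a = i ∧ b = j then g P else 0 := by
  unfold evb el
  rw [bm_mk]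
  unfold elM
  split_ifs <;> rfl

theorem el_smul {i j : Fin 3} {g : ℂ → ℂ} (hg : g ∈ Th (dg i j) 0) (P : ℂ) (x : X Q P)
    (l : Fin 3) : co (el Q hg • x) l =
      if l = i then g P * co x j else 0 := by
  rw [co_smulA]
  simp only [evb_el]
  by_cases h : l = i
  · subst h
    rw [if_pos rfl, Finset.sum_eq_single j]
    · simp
    · intro b _ hb
      simp [hb]
    · simp
  · rw [if_neg h]
    refine Finset.sum_eq_zero fun b _ => ?_
    rw [if_neg (fun h' => h h'.1), zero_mul]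

theorem one_mem (j : Fin 3) : (fun _ : ℂ => (1 : ℂ)) ∈ Th (dg j j) 0 := by
  rw [show dg j j = 0 by unfold dg; ring]
  exact constTh 1

/-- the unit vectors of `X_P` -/
def del (Q P : ℂ) (j : Fin 3) : X Q P := (Pi.single j 1 : Fin 3 → ℂ)

theorem del_apply (P : ℂ) (j l : Fin 3) : co (del Q P j) l =
    if l = j then 1 else 0 := by
  show (Pi.single j 1 : Fin 3 → ℂ) l = _
  rw [Pi.single_apply]

/-- sections separate points -/
theorem sepTh {P S : ℂ} (h : th (S - P) ≠ 0) : ∃ g ∈ Th 3 0, g P = 0 ∧ g S ≠ 0 := by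
  obtain ⟨f, hf, hfS⟩ := bpf (n := 2) le_rfl (P - eth) S
  refine ⟨thp P * f, Th.mul' (thp_mem P) hf (by norm_num) (by ring), ?_, ?_⟩
  · rw [Pi.mul_apply, thp_self, zero_mul]
  · rw [Pi.mul_apply]
    exact mul_ne_zero h hfS

theorem hom_diag {P S : ℂ} (f : X Q P →ₗ[A Q] X Q S) (j l : Fin 3) :
    co (f (del Q P j)) l =
      if l = j then co (f (del Q P j)) j else 0 := by
  have h1 : el Q (one_mem j) • del Q P j = del Q P j := by
    funext l
    show co (el Q (one_mem j) • del Q P j) l = co (del Q P j) l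
    rw [el_smul, del_apply, del_apply, if_pos rfl, one_mul]
  have h2 := congrArg (fun y => co (f y) l) h1
  simp only [map_smul] at h2
  rw [← h2]
  rw [el_smul, one_mul]

theorem hom_rel {P S : ℂ} (f : X Q P →ₗ[A Q] X Q S) {i j : Fin 3} {g : ℂ → ℂ}
    (hg : g ∈ Th (dg i j) 0) :
    g P * co (f (del Q P i)) i = g S * co (f (del Q P j)) j := by
  have h1 : el Q hg • del Q P j = g P • del Q P i := by
    funext l
    show co (el Q hg • del Q P j) l = g P * co (del Q P i) l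
    rw [el_smul, del_apply, del_apply, if_pos rfl]
    split_ifs <;> simp
  have h2 := congrArg (fun y => co (f y) i) h1
  simp only [map_smul, LinearMap.map_smul_of_tower] at h2
  have h3 : co (g P • f (del Q P i)) i =
    g P * co (f (del Q P i)) i := rfl
  rw [← h3, ← h2, el_smul, if_pos rfl]

/-- `Hom_A(X_P, X_S) = 0`. -/
theorem hX {P S : ℂ} (h : th (S - P) ≠ 0) (f : X Q P →ₗ[A Q] X Q S) : f = 0 := by
  obtain ⟨g, hg, hgP, hgS⟩ := sepTh h
  obtain ⟨g', hg', hgP'⟩ := bpf (n := 3) (by norm_num) 0 P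
  have d01 : (3 : ℤ) = dg 0 1 := by unfold dg; norm_num
  have d12 : (3 : ℤ) = dg 1 2 := by unfold dg; norm_num
  have c1 : co (f (del Q P 1)) 1 = 0 := by
    have := hom_rel f (i := 0) (j := 1) (g := g) (by rw [← d01]; exact hg)
    rw [hgP, zero_mul] at this
    exact (mul_eq_zero.1 this.symm).resolve_left hgS
  have c2 : co (f (del Q P 2)) 2 = 0 := by
    have := hom_rel f (i := 1) (j := 2) (g := g) (by rw [← d12]; exact hg)
    rw [hgP, zero_mul] at this
    exact (mul_eq_zero.1 this.symm).resolve_left hgS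
  have c0 : co (f (del Q P 0)) 0 = 0 := by
    have := hom_rel f (i := 0) (j := 1) (g := g') (by rw [← d01]; exact hg')
    rw [c1, mul_zero] at this
    exact (mul_eq_zero.1 this).resolve_left hgP'
  have hz : ∀ j, f (del Q P j) = 0 := by
    intro j
    funext l
    show co (f (del Q P j)) l = 0
    rw [hom_diag]
    split_ifs with hl
    · fin_cases j
      · exact c0
      · exact c1
      · exact c2
    · rfl
  refine LinearMap.ext fun x => ?_
  have hx : x = ∑ j, co x j • del Q P j := by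
    funext l
    show co x l = _
    have : (∑ j, co x j • del Q P j : X Q P) =
      (∑ j, co x j • (Pi.single j 1 : Fin 3 → ℂ) : Fin 3 → ℂ) := rfl
    rw [this, Finset.sum_apply, Finset.sum_eq_single l]
    · simp
    · intro b _ hb
      simp [Ne.symm hb]
    · simp
  rw [hx, map_sum]
  refine (Finset.sum_eq_zero fun j _ => ?_)
  rw [LinearMap.map_smul_of_tower, hz, smul_zero]

/-- evaluation at `S` times `c` -/
def evG (Q : ℂ) (m : ℤ) (α : ℂ) (S c : ℂ) : GT Q m α →ₗ[A Q] X Q S where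
  toFun x := (fun i => c * x.1.1 i S : Fin 3 → ℂ)
  map_add' x y := by
    funext i
    show c * (x.1.1 i S + y.1.1 i S) = c * x.1.1 i S + c * y.1.1 i S
    ring
  map_smul' a x := by
    funext i
    show c * (((a • (x : G)) : G).1 i S) = ∑ l, evb S a i l * (c * x.1.1 l S)
    rw [smul_G]
    show c * ((∑ l, bm a i l * x.1.1 l) S) = _
    rw [Finset.sum_apply, Finset.mul_sum]
    refine Finset.sum_congr rfl fun l _ => ?_
    rw [Pi.mul_apply]
    show c * (bm a i l S * x.1.1 l S) = bm a i l S * (c * x.1.1 l S)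
    ring

theorem evG_apply {m : ℤ} {α : ℂ} (S c : ℂ) (x : GT Q m α) (i : Fin 3) :
    co (evG Q m α S c x) i = c * x.1.1 i S := rfl

/-- `Hom_A(A e_j, X_S) = ℂ`. -/
theorem hom_E (j : Fin 3) (S : ℂ) (χ : GT Q (3 * ((j : ℕ) : ℤ)) 0 →ₗ[A Q] X Q S) :
    ∃ c : ℂ, ∀ x, χ x = evG Q _ _ S c x := by
  have h1 : el Q (one_mem j) • epsE Q j = epsE Q j := by
    apply Subtype.ext
    show el Q (one_mem j) • eps j = eps j
    rw [smul_eps]
    unfold el
    rw [bm_mk, nm_mk]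
    refine Prod.ext ?_ ?_
    · funext i
      show (if i = j ∧ j = j then (fun _ => (1 : ℂ)) else 0 : ℂ → ℂ) =
        (if i = j then 1 else 0 : ℂ → ℂ)
      by_cases hi : i = j
      · simp [hi]; rfl
      · simp [hi]
    · rfl
  have h2 : ∀ l, co (χ (epsE Q j)) l =
      if l = j then co (χ (epsE Q j)) j else 0 := by
    intro l
    have h3 := congrArg (fun y => co (χ y) l) h1
    simp only [map_smul] at h3
    rw [← h3, el_smul, one_mul]
  refine ⟨co (χ (epsE Q j)) j, fun x => ?_⟩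
  have h4 : χ x = colA Q j x • χ (epsE Q j) := by rw [← map_smul, colA_epsE]
  rw [h4]
  funext i
  show co (colA Q j x • χ (epsE Q j)) i = _ * x.1.1 i S
  rw [co_smulA, Finset.sum_eq_single j]
  · unfold evb
    rw [bm_colA]
    unfold colM
    rw [if_pos rfl, mul_comm]
  · intro b _ hb
    rw [h2 b, if_neg hb, mul_zero]
  · simp

theorem evG_eps (j : Fin 3) (S c : ℂ) :
    co (evG Q _ _ S c (epsE Q j)) j = c := by
  rw [evG_apply]
  show c * (u0 j j) S = c
  unfold u0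
  rw [if_pos rfl, Pi.one_apply, mul_one]

/-- The extension statement `(hE2)`. -/
theorem hE2_of {S : ℂ} {j0 j1 : Fin 3}
    (zj : GT Q (3 * ((j0 : ℕ) : ℤ)) 0 →ₗ[A Q]
      (GT Q (3 * ((j1 : ℕ) : ℤ)) 0 × GT Q (3 * ((j1 : ℕ) : ℤ)) 0)) (a b : ℂ)
    (hab : a ≠ 0 ∨ b ≠ 0)
    (h1 : ∀ x i, (zj x).1.1.1 i S = a * x.1.1 i S)
    (h2 : ∀ x i, (zj x).2.1.1 i S = b * x.1.1 i S)
    (χ : GT Q (3 * ((j0 : ℕ) : ℤ)) 0 →ₗ[A Q] X Q S) :
    ∃ ψ : (GT Q (3 * ((j1 : ℕ) : ℤ)) 0 × GT Q (3 * ((j1 : ℕ) : ℤ)) 0) →ₗ[A Q] X Q S,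
      ∀ x, ψ (zj x) = χ x := by
  obtain ⟨c, hc⟩ := hom_E j0 S χ
  have key : ∃ c1 c2 : ℂ, c1 * a + c2 * b = c := by
    rcases hab with h | h
    · exact ⟨c / a, 0, by field_simp; ring⟩
    · exact ⟨0, c / b, by field_simp; ring⟩
  obtain ⟨c1, c2, h⟩ := key
  refine ⟨(evG Q _ _ S c1).comp (LinearMap.fst _ _ _) + (evG Q _ _ S c2).comp (LinearMap.snd _ _ _),
    fun x => ?_⟩
  rw [hc]
  funext i
  show c1 * (zj x).1.1.1 i S + c2 * (zj x).2.1.1 i S = c * x.1.1 i S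
  rw [h1, h2, ← h]
  ring

/-- The extension statement `(hE1)`. -/
theorem hE1_of {S : ℂ} {j0 j1 j2 : Fin 3}
    (zj : GT Q (3 * ((j0 : ℕ) : ℤ)) 0 →ₗ[A Q]
      (GT Q (3 * ((j1 : ℕ) : ℤ)) 0 × GT Q (3 * ((j1 : ℕ) : ℤ)) 0))
    (is : (GT Q (3 * ((j1 : ℕ) : ℤ)) 0 × GT Q (3 * ((j1 : ℕ) : ℤ)) 0) →ₗ[A Q]
      GT Q (3 * ((j2 : ℕ) : ℤ)) 0) (a b : ℂ)
    (hab : a ≠ 0 ∨ b ≠ 0)
    (h1 : ∀ x i, (zj x).1.1.1 i S = a * x.1.1 i S)
    (h2 : ∀ x i, (zj x).2.1.1 i S = b * x.1.1 i S)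
    (h3 : ∀ y i, (is y).1.1 i S = b * y.1.1.1 i S - a * y.2.1.1 i S)
    (χ : (GT Q (3 * ((j1 : ℕ) : ℤ)) 0 × GT Q (3 * ((j1 : ℕ) : ℤ)) 0) →ₗ[A Q] X Q S)
    (hχ : ∀ x, χ (zj x) = 0) :
    ∃ ψ : GT Q (3 * ((j2 : ℕ) : ℤ)) 0 →ₗ[A Q] X Q S, ∀ y, ψ (is y) = χ y := by
  obtain ⟨c1, hc1⟩ := hom_E j1 S (χ.comp (LinearMap.inl _ _ _))
  obtain ⟨c2, hc2⟩ := hom_E j1 S (χ.comp (LinearMap.inr _ _ _))
  have hy : ∀ y i, co (χ y) i = c1 * y.1.1.1 i S + c2 * y.2.1.1 i S := by
    intro y i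
    have e : y = LinearMap.inl (A Q) _ _ y.1 + LinearMap.inr (A Q) _ _ y.2 := by
      simp
    have e1 : χ y = evG Q _ _ S c1 y.1 + evG Q _ _ S c2 y.2 := by
      rw [← hc1, ← hc2, LinearMap.comp_apply, LinearMap.comp_apply, ← map_add, ← e]
    rw [e1]
    rfl
  have h0 : c1 * a + c2 * b = 0 := by
    have h4 : co (χ (zj (epsE Q j0))) j0 = 0 := by rw [hχ]; rfl
    rw [hy, h1, h2] at h4
    have h5 : (epsE Q j0).1.1 j0 S = 1 := by
      show (u0 j0 j0) S = 1
      unfold u0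
      rw [if_pos rfl, Pi.one_apply]
    rw [h5] at h4
    linear_combination h4
  have key : ∃ t : ℂ, t * b = c1 ∧ -(t * a) = c2 := by
    rcases hab with h | h
    · refine ⟨-(c2 / a), ?_, ?_⟩
      · field_simp
        linear_combination -h0
      · field_simp
    · refine ⟨c1 / b, ?_, ?_⟩
      · field_simp
      · field_simp
        linear_combination -h0
  obtain ⟨t, ht1, ht2⟩ := key
  refine ⟨evG Q _ _ S t, fun y => ?_⟩
  funext i
  show t * (is y).1.1 i S = co (χ y) i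
  rw [hy, h3, ← ht1, ← ht2]
  ring

end Pool.Agent.Helper879Han
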